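import Pool.Agent.helper47.SC.Spec

set_option autoImplicit false

open scoped Topology ContDiff
open Set Filter Metric MeasureTheory
open Pool.Agent.helper90.KMMP (levi hess)

namespace Pool.Agent.SC

private theorem COR_two : (2 : WithTop ℕ∞) ≤ ∞ := by
  have h : ((2 : ℕ∞) : WithTop ℕ∞) ≤ ((⊤ : ℕ∞) : WithTop ℕ∞) := WithTop.coe_le_coe.2 le_top
  exact h

private theorem COR_levi {E : Type} [NormedAddCommGroup E] [NormedSpace ℂ E] (f : E → ℝ) (z v : E) :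
    leviForm f z v = 1 / 4 * levi f z v := rfl

private theorem COR_open (s : ℕ → C3) (m : ℕ → ℕ) (h₁ h₂ : C2 → ℂ) (h2 : SHR_stmt)
    (hX : IsOpen (XX s m)) (c1 : ContDiffOn ℂ ∞ h₁ (XX s m)) (c2 : ContDiffOn ℂ ∞ h₂ (XX s m))
    (hY : IsOpen (YY s m)) : IsOpen (Om s m h₁ h₂) := by
  obtain ⟨_, _, h⟩ := h2 h₁ h₂
  obtain ⟨o1, _, o3⟩ := h (XX s m) hX c1 c2
  have e : Om s m h₁ h₂ = {q : C4 | (q.1, q.2.1) ∈ XX s m} ∩ Psi h₁ h₂ ⁻¹' (YY s m) := by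
    ext z
    constructor
    · intro hz
      exact ⟨hz.1, hz⟩
    · intro hz
      exact hz.2
  rw [e]
  exact o3.continuousOn.isOpen_inter_preimage o1 hY

theorem COR (h1 : LIN_stmt) (h2 : SHR_stmt) (h3 : LIO_stmt) (h4 : CMP_stmt) : COR_stmt := by
  intro s D T m h₁ h₂ hD hM hX c1 c2 hY t ht x hx
  obtain ⟨hl, hT⟩ := h1 s D T m hD hM
  have hOm := COR_open s m h₁ h₂ h2 hX c1 c2 hY
  obtain ⟨hPP, _, h⟩ := h2 h₁ h₂
  obtain ⟨o1, hPhi, _⟩ := h (XX s m) hX c1 c2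
  have hmem : ∀ q ∈ YY s m, Phi h₁ h₂ q ∈ Om s m h₁ h₂ := by
    intro q hq
    show Psi h₁ h₂ (Phi h₁ h₂ q) ∈ YY s m
    rw [hPP]
    exact hq
  refine ⟨hmem _ (hT t ht x hx), ?_⟩
  rintro f ⟨hf, hpsh⟩ ⟨C, hC⟩ hstrict
  -- smoothness
  have hfAt : ∀ q ∈ YY s m, ContDiffAt ℝ 2 f (Phi h₁ h₂ q) := fun q hq =>
    (hf.contDiffAt (hOm.mem_nhds (hmem q hq))).of_le COR_two
  have hPhiAt : ∀ q ∈ YY s m, ContDiffAt ℂ 2 (Phi h₁ h₂) q := fun q hq =>
    (hPhi.contDiffAt (o1.mem_nhds hq.1)).of_le COR_two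
  have hgam : ∀ (y : ℂ) (w : C3), (y, w) ∈ YY s m →
      ContDiffAt ℂ 2 (fun y : ℂ => Phi h₁ h₂ (y, w)) y := by
    intro y w hq
    exact ContDiffAt.comp (f := fun y : ℂ => (y, w)) (g := Phi h₁ h₂) y (hPhiAt _ hq)
      (contDiffAt_id.prodMk contDiffAt_const)
  have hcomp : ∀ (y : ℂ) (w : C3), (y, w) ∈ YY s m → ∀ v : ℂ,
      levi (fun y : ℂ => f (Phi h₁ h₂ (y, w))) y v =
        levi f (Phi h₁ h₂ (y, w)) (fderiv ℂ (fun y : ℂ => Phi h₁ h₂ (y, w)) y v) := by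
    intro y w hq v
    exact h4 ℂ C4 f (fun y : ℂ => Phi h₁ h₂ (y, w)) y (hfAt _ hq) (hgam y w hq) v
  -- the lines over `s i`
  have hconst : ∀ (i : ℕ) (y y' : ℂ), f (Phi h₁ h₂ (y, s i)) = f (Phi h₁ h₂ (y', s i)) := by
    intro i y y'
    refine h3 (fun y : ℂ => f (Phi h₁ h₂ (y, s i))) C ?_ ?_ ?_ y y'
    · rw [contDiff_iff_contDiffAt]
      intro z
      exact ContDiffAt.comp (f := fun y : ℂ => Phi h₁ h₂ (y, s i)) (g := f) z (hfAt _ (hl i z))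
        ((hgam z (s i) (hl i z)).restrict_scalars ℝ)
    · intro z v
      rw [hcomp z (s i) (hl i z) v]
      have := hpsh _ (hmem _ (hl i z)) (fderiv ℂ (fun y : ℂ => Phi h₁ h₂ (y, s i)) z v)
      rw [COR_levi] at this
      linarith
    · intro z
      exact hC _ (hmem _ (hl i z))
  -- the discs over `t`
  have hdisc : ∀ y : ℂ, ‖y‖ < 1 → f (Phi h₁ h₂ (y, t)) = f (Phi h₁ h₂ (0, t)) := by
    intro y hy
    have hct : ∀ y : ℂ, ‖y‖ < 1 → ContinuousAt (fun w : C3 => f (Phi h₁ h₂ (y, w))) t := by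
      intro y hy
      have hq := hT t ht y hy
      have a1 : ContinuousAt f (Phi h₁ h₂ (y, t)) := (hfAt _ hq).continuousAt
      have a2 : ContinuousAt (Phi h₁ h₂) (y, t) := (hPhiAt _ hq).continuousAt
      have a3 : ContinuousAt (fun w : C3 => ((y, w) : C4)) t :=
        continuousAt_const.prodMk continuousAt_id
      exact ContinuousAt.comp (f := fun w : C3 => Phi h₁ h₂ (y, w)) (g := f) a1
        (ContinuousAt.comp (f := fun w : C3 => ((y, w) : C4)) (g := Phi h₁ h₂) a2 a3)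
    have k1 := hct y hy
    have k2 := hct 0 (by simp)
    have hne : (𝓝[range s] t).NeBot := mem_closure_iff_nhdsWithin_neBot.1 (hD.dense ht)
    have l1 : Tendsto (fun w : C3 => f (Phi h₁ h₂ (y, w))) (𝓝[range s] t)
        (𝓝 (f (Phi h₁ h₂ (y, t)))) := k1.tendsto.mono_left nhdsWithin_le_nhds
    have l2 : Tendsto (fun w : C3 => f (Phi h₁ h₂ (0, w))) (𝓝[range s] t)
        (𝓝 (f (Phi h₁ h₂ (0, t)))) := k2.tendsto.mono_left nhdsWithin_le_nhds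
    have l3 : (fun w : C3 => f (Phi h₁ h₂ (y, w))) =ᶠ[𝓝[range s] t]
        fun w : C3 => f (Phi h₁ h₂ (0, w)) := by
      filter_upwards [self_mem_nhdsWithin] with w hw
      obtain ⟨i, rfl⟩ := hw
      exact hconst i y 0
    exact tendsto_nhds_unique (l1.congr' l3) l2
  have hq := hT t ht x hx
  have hloc : (fun y : ℂ => f (Phi h₁ h₂ (y, t))) =ᶠ[𝓝 x] fun _ => f (Phi h₁ h₂ (0, t)) := by
    have hb : {y : ℂ | ‖y‖ < 1} ∈ 𝓝 x := (isOpen_lt continuous_norm continuous_const).mem_nhds hx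
    filter_upwards [hb] with y hy
    exact hdisc y hy
  have hz : levi (fun y : ℂ => f (Phi h₁ h₂ (y, t))) x 1 = 0 := by
    rw [Pool.Agent.helper90.KMMP.levi_congr hloc]
    simp [levi, hess]
  rw [hcomp x t hq 1] at hz
  have hv : fderiv ℂ (fun y : ℂ => Phi h₁ h₂ (y, t)) x 1 ≠ 0 := by
    have d1 : HasFDerivAt (fun y : ℂ => Phi h₁ h₂ (y, t))
        (fderiv ℂ (fun y : ℂ => Phi h₁ h₂ (y, t)) x) x :=
      ((hgam x t hq).differentiableAt (by norm_num)).hasFDerivAt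
    have d2 : HasFDerivAt (fun y : ℂ => (Phi h₁ h₂ (y, t)).1)
        ((ContinuousLinearMap.fst ℂ ℂ C3).comp (fderiv ℂ (fun y : ℂ => Phi h₁ h₂ (y, t)) x)) x :=
      d1.fst
    have d3 : HasFDerivAt (fun y : ℂ => (Phi h₁ h₂ (y, t)).1) (ContinuousLinearMap.id ℂ ℂ) x :=
      hasFDerivAt_id x
    have d4 := d2.unique d3
    intro h0
    have d5 := congrArg (fun L : ℂ →L[ℂ] ℂ => L 1) d4
    simp [h0] at d5
  have := hstrict _ hv
  rw [COR_levi, hz] at this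
  simp at this

end Pool.Agent.SC
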